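import Mathlib
import Pool.Agent.MP_b41015_an.SB.Up

set_option autoImplicit false

open Pool.Agent.MP_b41015_an

namespace Pool.Agent.Results.MP_b41015_an.NoSwitchingBound

/-- In dimension three there is a pair of polynomial vector fields that is small-time locally
controllable at the origin although, for every `N`, for some `t > 0` the origin is not an
interior point of the set reachable in time less than `t` with at most `N` switchings, even if
every arc may follow an arbitrary fixed convex combination of the two fields. -/
theorem result :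
    ∃ f : Fin 2 → (Fin 3 → ℝ) → (Fin 3 → ℝ),
      (∀ i, IsPolynomialField (f i) ∧ AnalyticOnNhd ℝ (f i) Set.univ) ∧ STLC f ∧
      ∀ N : ℕ, ∃ t : ℝ, 0 < t ∧ (0 : Fin 3 → ℝ) ∉ interior (Reach f t N) ∧
        (0 : Fin 3 → ℝ) ∉ interior (ReachHull f t N) := by
  refine ⟨SB.FF, fun i => ⟨SB.poly_FF i, (SB.poly_FF i).analytic⟩, SB.stlc, fun N => ?_⟩
  obtain ⟨t, ht, h⟩ := SB.low N
  exact ⟨t, ht, fun h' => h (interior_mono (SB.reach_sub _ _ _) h'), h⟩

end Pool.Agent.Results.MP_b41015_an.NoSwitchingBound
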