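import Mathlib
import Pool.Agent.MP_b41015_an.Jets

set_option autoImplicit false

open Pool.Agent.MP_b41015_an

namespace Pool.Agent.Results.MP_b41015_an.NotFinitelyDetermined

/-- In every dimension `n ≥ 4` there is a finite family of polynomial vector fields that is
small-time locally controllable at the origin although, for every `N`, some family of polynomial
vector fields with the same Taylor polynomials of degree `N` at the origin is not. -/
theorem result (n : ℕ) (hn : 4 ≤ n) :
    ∃ k : ℕ, 2 ≤ k ∧ ∃ f : Fin k → (Fin n → ℝ) → (Fin n → ℝ),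
      (∀ i, IsPolynomialField (f i) ∧ AnalyticOnNhd ℝ (f i) Set.univ) ∧ STLC f ∧
      ∀ N : ℕ, ∃ g : Fin k → (Fin n → ℝ) → (Fin n → ℝ),
        (∀ i, IsPolynomialField (g i) ∧ AnalyticOnNhd ℝ (g i) Set.univ) ∧
        AgreeToOrder N f g ∧ ¬ STLC g := by
  have ha : Function.Injective (Fin.castLE hn) := Fin.castLE_injective hn
  let e : Fin (Fintype.card (Idx n)) ≃ Idx n := (Fintype.equivFin (Idx n)).symm
  refine ⟨Fintype.card (Idx n), by simp [Idx], fun i => fld (Fin.castLE hn) 0 0 (e i),
    fun i => ⟨poly_fld _ _ _ _, (poly_fld _ _ _ _).analytic⟩, stlc ha e.surjective, fun N => ?_⟩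
  exact ⟨fun i => fld (Fin.castLE hn) 1 (N + 1) (e i),
    fun i => ⟨poly_fld _ _ _ _, (poly_fld _ _ _ _).analytic⟩,
    fun i j hj => jet_fld _ _ _ _ (by omega), not_stlc ha (by omega) e⟩

end Pool.Agent.Results.MP_b41015_an.NotFinitelyDetermined
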